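import Pool.Agent.MWF.Stmts

/-!
# Squad MWF, row RRA (helper51): the closed set for RRD
-/

set_option autoImplicit false

namespace Pool.Agent.MWF.H51

open Pool.Agent.Helper14_MV Pool.Agent.Helper2_MV Pool.Agent.MWF

theorem split01 (v : List ℕ) (hv : ∀ c ∈ v, c = 0 ∨ c = 1) (h1 : v.count 1 = 1) :
    ∃ a b, v = List.replicate a 0 ++ 1 :: List.replicate b 0 := by
  have hm : 1 ∈ v := by
    rw [← List.count_pos_iff]
    omega
  obtain ⟨s, t, rfl⟩ := List.append_of_mem hm
  rw [List.count_append, List.count_cons_self] at h1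
  have hs : s.count 1 = 0 := by omega
  have ht : t.count 1 = 0 := by omega
  rw [List.count_eq_zero] at hs ht
  refine ⟨s.length, t.length, ?_⟩
  have e1 : s = List.replicate s.length 0 := by
    apply List.eq_replicate_of_mem
    intro c hc
    rcases hv c (List.mem_append_left _ hc) with h | h
    · exact h
    · exact absurd (h ▸ hc) hs
  have e2 : t = List.replicate t.length 0 := by
    apply List.eq_replicate_of_mem
    intro c hc
    rcases hv c (List.mem_append_right _ (List.mem_cons_of_mem _ hc)) with h | h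
    · exact h
    · exact absurd (h ▸ hc) ht
  rw [← e1, ← e2]

theorem rra (hP : PowStmt) (hC : CttStmt) (hS : SimStmt) : RraStmt := by
  intro β hA hI hn u v huv hu0
  obtain ⟨k, hk, hu⟩ := hu0
  have hcont := hC β hA u v huv
  have hv01 : ∀ c ∈ v, c = 0 ∨ c = 1 := by
    intro c hc
    have h1 := (hcont c).2 hc
    rw [hu] at h1
    rcases List.mem_append.1 h1 with h2 | h2
    · simp at h2
      exact h2
    · exact Or.inl (List.eq_of_mem_replicate h2)
  have hc1 : v.count 1 = 1 := by
    apply hS β hA u v huv 1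
    rw [hu, List.count_append]
    have : (List.replicate k 0).count 1 = 0 := by
      rw [List.count_eq_zero]
      intro h
      exact absurd (List.eq_of_mem_replicate h) (by norm_num)
    rw [this]
    decide
  obtain ⟨a, b, hab⟩ := split01 v hv01 hc1
  rcases Nat.lt_or_ge k 2 with hk2 | hk2
  · -- `k = 1`
    have hk1 : k = 1 := by omega
    subst hk1
    have h2 : RR β [0, 1, 0] v := by
      rw [hu] at huv
      exact huv
    exact ⟨1, le_refl 1, hI v h2⟩
  -- `k ≥ 2`
  have pw : ∀ i, 2 ≤ i → RR β (List.replicate i 0) [0, 0] := fun i hi =>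
    hP β hA.sq 0 i 2 hi (le_refl 2)
  have h : RR β [0, 1, 0, 0] (List.replicate a 0 ++ 1 :: List.replicate b 0) := by
    have h1 : RR β ([0, 1] ++ List.replicate k 0) ([0, 1] ++ [0, 0]) :=
      (RR.refl [0, 1]).append (pw k hk2)
    rw [hu, hab] at huv
    exact β.trans h1.symm huv
  have hsum : 2 ≤ a + b := by
    by_contra hlt
    have h0 : 0 ∈ List.replicate a 0 ++ 1 :: List.replicate b 0 :=
      (hC β hA _ _ h 0).1 (by simp)
    have h1 := h.filter (fun c => c == 0)
    have e1 : ([0, 1, 0, 0] : List ℕ).filter (fun c => c == 0) = [0, 0, 0] := by decide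
    have e2 : (List.replicate a 0 ++ 1 :: List.replicate b 0 : List ℕ).filter (fun c => c == 0) =
        List.replicate (a + b) 0 := by
      rw [List.filter_append, List.filter_cons_of_neg (by decide), List.filter_replicate,
        List.filter_replicate]
      simp [List.replicate_append_replicate]
    rw [e1, e2] at h1
    have h2 : a + b ≠ 0 := by
      intro h3
      have ha : a = 0 := by omega
      have hb : b = 0 := by omega
      rw [ha, hb] at h0
      simp at h0
    have h3 : a + b = 1 := by omega
    rw [h3] at h1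
    exact hA.ncr (RR.symm (β.trans hA.sq h1))
  by_cases hgood : a = 1 ∧ 1 ≤ b
  · refine ⟨b, hgood.2, ?_⟩
    rw [hab, hgood.1]
    rfl
  exfalso
  -- the case `(≥ 2, 1)`
  have case3 : ¬ RR β [0, 1, 0, 0] [0, 0, 1, 0] := by
    intro h3
    have h4 : RR β ([0] ++ [0, 1, 0, 0]) ([0] ++ [0, 0, 1, 0]) := (RR.refl [0]).append h3
    have h5 : RR β ([0, 0, 0] ++ [1, 0]) ([0, 0] ++ [1, 0]) :=
      (RR.symm hA.sq).append (RR.refl [1, 0])
    apply hn
    exact RR.symm (β.trans h4 (β.trans h5 (RR.symm h3)))
  rcases Nat.lt_or_ge b 2 with hb2 | hb2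
  · have ha : 1 ≤ a := by omega
    rcases Nat.lt_or_ge a 2 with ha2 | ha2
    · apply hgood
      constructor
      · omega
      · omega
    · rcases Nat.eq_zero_or_pos b with hb0 | hb0
      · -- `b = 0`
        subst hb0
        have h1 : RR β (List.replicate a 0 ++ [1]) ([0, 0] ++ [1]) :=
          (pw a ha2).append (RR.refl [1])
        have h2 : RR β [0, 1, 0, 0] [0, 0, 1] := β.trans h h1
        have h3 : RR β ([0, 1, 0, 0] ++ [0]) ([0, 0, 1] ++ [0]) := h2.append (RR.refl [0])
        have h4 : RR β ([0, 1] ++ [0, 0]) ([0, 1] ++ [0, 0, 0]) := (RR.refl [0, 1]).append hA.sq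
        exact case3 (β.trans h4 h3)
      · have hb1 : b = 1 := by omega
        subst hb1
        have h1 : RR β (List.replicate a 0 ++ [1, 0]) ([0, 0] ++ [1, 0]) :=
          (pw a ha2).append (RR.refl [1, 0])
        exact case3 (β.trans h h1)
  · have hbb : RR β (List.replicate a 0 ++ 1 :: List.replicate b 0)
        (List.replicate a 0 ++ [1, 0, 0]) := by
      have h1 : RR β ([1] ++ List.replicate b 0) ([1] ++ [0, 0]) :=
        (RR.refl [1]).append (pw b hb2)
      exact (RR.refl (List.replicate a 0)).append h1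
    have h6 := β.trans h hbb
    rcases Nat.eq_zero_or_pos a with ha0 | ha0
    · subst ha0
      have h7 : RR β ([0] ++ [0, 1, 0, 0]) ([0] ++ [1, 0, 0]) := (RR.refl [0]).append h6
      exact hn (RR.symm h7)
    · have ha2 : 2 ≤ a := by
        by_contra h8
        apply hgood
        constructor
        · omega
        · omega
      have h7 : RR β (List.replicate a 0 ++ [1, 0, 0]) ([0, 0] ++ [1, 0, 0]) :=
        (pw a ha2).append (RR.refl [1, 0, 0])
      exact hn (β.trans h6 h7)

end Pool.Agent.MWF.H51
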